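import Mathlib

/-!
# Saturation numbers of virus graphs: a two-parameter region in which the slope `(t + s - 2) / 2` is wrong

The question is whether `sat(n, K_t^s) - (t + s - 2) / 2 * n` is bounded for all `3 ≤ s ≤ t - 2`. An earlier
library result settles it negatively by the one pair `(s, t) = (4, 6)`. Here the failure is shown for every pair
with `s ≥ 4` and `s + 2 ≤ t ≤ (s - 2) ^ 2 + 3`, for all large `n` (not only along one residue class), with an
explicit linear gain `((s - 2) ^ 2 + 4 - t) / (2 (t + s - 2)) * n`.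

The graph: a hub, `N` blocks which are complete graphs `K_{s+t-2}` minus the edges of a `K_{s-1}`, the hub being
joined to all but two vertices of each block (the two missed vertices have full degree in the block), and fewer
than `s + t - 2` further components `K_{s+t-1}`, which take care of the residue of `n`.
-/

set_option autoImplicit false

namespace Pool.Agent.Results.MP_2b7cb2_co.VirusRegion

open SimpleGraph

/-! ### Saturation numbers -/

/-- `G` is `F`-saturated: it has no subgraph isomorphic to `F`, and adding any edge between two distinct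
non-adjacent vertices creates one. -/
def IsSat {W V : Type} (F : SimpleGraph W) (G : SimpleGraph V) : Prop :=
  ¬ F.IsContained G ∧ ∀ x y : V, x ≠ y → ¬ G.Adj x y → F.IsContained (G ⊔ SimpleGraph.edge x y)

/-- The saturation number `sat(n, F)`: the least number of edges of an `F`-saturated graph on `n` vertices. -/
noncomputable def satNum {W : Type} (n : ℕ) (F : SimpleGraph W) : ℕ :=
  sInf {m | ∃ G : SimpleGraph (Fin n), IsSat F G ∧ G.edgeSet.ncard = m}

lemma isSat_iso {W V V' : Type} {F : SimpleGraph W} {G : SimpleGraph V} {H : SimpleGraph V'} (e : G ≃g H)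
    (h : IsSat F G) : IsSat F H := by
  refine ⟨fun hc => h.1 (hc.trans ⟨e.symm.toCopy⟩), ?_⟩
  intro x y hxy hadj
  have hc := h.2 (e.symm x) (e.symm y) (fun hh => hxy (e.symm.injective hh))
    (fun hh => hadj (by simpa using e.map_adj_iff.mpr hh))
  let f : (G ⊔ SimpleGraph.edge (e.symm x) (e.symm y)) →g (H ⊔ SimpleGraph.edge x y) :=
    { toFun := e
      map_rel' := by
        intro a b hab
        rw [SimpleGraph.sup_adj, SimpleGraph.edge_adj] at hab ⊢
        rcases hab with hab | ⟨hab, hne⟩
        · exact Or.inl (e.map_adj_iff.mpr hab)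
        · refine Or.inr ⟨?_, fun hh => hne (e.injective hh)⟩
          rcases hab with ⟨h1, h2⟩ | ⟨h1, h2⟩
          · left; exact ⟨by rw [h1]; simp, by rw [h2]; simp⟩
          · right; exact ⟨by rw [h1]; simp, by rw [h2]; simp⟩ }
  exact hc.trans ⟨⟨f, e.injective⟩⟩

/-- A saturated graph on a finite type bounds the saturation number. -/
lemma satNum_le {W V : Type} [Fintype V] (F : SimpleGraph W) (G : SimpleGraph V) (h : IsSat F G) :
    satNum (Fintype.card V) F ≤ G.edgeSet.ncard := by
  classical
  let e := Fintype.equivFin V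
  have h1 := isSat_iso (SimpleGraph.Iso.map e G) h
  apply Nat.sInf_le
  refine ⟨_, h1, ?_⟩
  have : (G.map e).edgeSet = (Sym2.map e) '' G.edgeSet := SimpleGraph.edgeSet_map e.toEmbedding G
  rw [this, Set.ncard_image_of_injective _ (Sym2.map.injective e.injective)]

/-! ### The virus -/

/-- The virus `K_t^s`: a complete graph on the vertices `inl i`, `i < t`, and for `i < s` a vertex `inr i` of
degree one (if `s ≤ t`) whose neighbour is `inl i`. -/
def virus (s t : ℕ) : SimpleGraph (Fin t ⊕ Fin s) where
  Adj := fun x y => match x, y with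
    | .inl a, .inl b => a ≠ b
    | .inl a, .inr b => (a : ℕ) = b
    | .inr a, .inl b => (a : ℕ) = b
    | .inr _, .inr _ => False
  symm := ⟨by
    rintro (a | a) (b | b) h
    · exact h.symm
    · exact Eq.symm h
    · exact Eq.symm h
    · exact h⟩
  loopless := ⟨by
    rintro (a | a) h
    · exact h rfl
    · exact h⟩

/-- A copy of the virus from the images of its vertices. -/
lemma contained_of {V : Type} (G : SimpleGraph V) (s t : ℕ) (f g : ℕ → V)
    (hf : ∀ a b, a < t → b < t → a ≠ b → f a ≠ f b)
    (hg : ∀ a b, a < s → b < s → a ≠ b → g a ≠ g b)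
    (hfg : ∀ a b, a < t → b < s → f a ≠ g b)
    (hc : ∀ a b, a < t → b < t → a ≠ b → G.Adj (f a) (f b))
    (hp : ∀ a, a < t → a < s → G.Adj (f a) (g a)) :
    (virus s t).IsContained G := by
  let φ : Fin t ⊕ Fin s → V := Sum.elim (fun a => f a) (fun b => g b)
  refine ⟨⟨⟨φ, ?_⟩, ?_⟩⟩
  · rintro (a | a) (b | b) h
    · exact hc a b a.2 b.2 (fun e => h (Fin.ext e))
    · have e : (a : ℕ) = b := h
      have := hp a a.2 (by rw [e]; exact b.2)
      change G.Adj (f a) (g b)
      rw [← e]
      exact this
    · have e : (a : ℕ) = b := h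
      have := hp b b.2 (by rw [← e]; exact a.2)
      change G.Adj (g a) (f b)
      rw [e]
      exact this.symm
    · exact h.elim
  · rintro (a | a) (b | b) h
    · by_contra hne
      exact hf a b a.2 b.2 (fun e => hne (by rw [Fin.ext e])) h
    · exact (hfg a b a.2 b.2 h).elim
    · exact (hfg b a b.2 a.2 h.symm).elim
    · by_contra hne
      exact hg a b a.2 b.2 (fun e => hne (by rw [Fin.ext e])) h

/-! ### The graph -/

/-- The vertices: a hub, `N` blocks with `S + T` vertices and `r` blocks with `S + T + 1` vertices. -/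
abbrev VV (S T N r : ℕ) : Type := Option ((Fin N × Fin (S + T)) ⊕ (Fin r × Fin (S + T + 1)))

/-- Adjacency inside an ordinary block with the hub `S + T`: the first `S` vertices are independent, all
other pairs of vertices are adjacent, and the hub is adjacent to all vertices but the last two. -/
def ladj (S T p q : ℕ) : Prop :=
  p ≠ q ∧ ((p < S + T ∧ q < S + T ∧ ¬ (p < S ∧ q < S)) ∨ (p = S + T ∧ q + 2 < S + T) ∨
    (q = S + T ∧ p + 2 < S + T))

lemma ladj_symm {S T p q : ℕ} (h : ladj S T p q) : ladj S T q p := by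
  unfold ladj at *
  tauto

/-- Adjacency of the graph `GV S T N r`. -/
def adjV (S T N r : ℕ) : VV S T N r → VV S T N r → Prop
  | none, none => False
  | none, some (.inl (_, q)) => ladj S T (S + T) q
  | some (.inl (_, p)), none => ladj S T p (S + T)
  | some (.inl (i, p)), some (.inl (j, q)) => i = j ∧ ladj S T p q
  | some (.inr (i, p)), some (.inr (j, q)) => i = j ∧ p ≠ q
  | _, _ => False

/-- The saturated graph. -/
def GV (S T N r : ℕ) : SimpleGraph (VV S T N r) where
  Adj := adjV S T N r
  symm := ⟨by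
    rintro (_ | ⟨i, p⟩ | ⟨i, p⟩) (_ | ⟨j, q⟩ | ⟨j, q⟩) h
    · exact h
    · exact ladj_symm h
    · exact h
    · exact ladj_symm h
    · exact ⟨h.1.symm, ladj_symm h.2⟩
    · exact h
    · exact h
    · exact h
    · exact ⟨h.1.symm, h.2.symm⟩⟩
  loopless := ⟨by
    rintro (_ | ⟨i, p⟩ | ⟨i, p⟩) h
    · exact h
    · exact h.2.1 rfl
    · exact h.2 rfl⟩

variable {S T N r : ℕ}

/-- The local names `p < S + T` denote the vertices of the block `i`, the name `S + T` the hub, and all
larger names the vertex `o`. -/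
def place (i : Fin N) (o : VV S T N r) (p : ℕ) : VV S T N r :=
  if h : p < S + T then some (.inl (i, ⟨p, h⟩)) else if p = S + T then none else o

lemma place_block (i : Fin N) (o : VV S T N r) (p : ℕ) (h : p < S + T) :
    place i o p = some (.inl (i, ⟨p, h⟩)) := by
  unfold place; rw [dif_pos h]

lemma place_hub (i : Fin N) (o : VV S T N r) : place i o (S + T) = none := by
  unfold place; rw [dif_neg (by omega), if_pos rfl]

lemma place_out (i : Fin N) (o : VV S T N r) : place i o (S + T + 1) = o := by
  unfold place; rw [dif_neg (by omega), if_neg (by omega)]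

lemma place_adj (i : Fin N) (o : VV S T N r) {p q : ℕ} (h : ladj S T p q) :
    (GV S T N r).Adj (place i o p) (place i o q) := by
  have hp : p < S + T ∨ p = S + T := by unfold ladj at h; omega
  have hq : q < S + T ∨ q = S + T := by unfold ladj at h; omega
  rcases hp with hp | rfl
  · rcases hq with hq | rfl
    · rw [place_block i o p hp, place_block i o q hq]
      exact ⟨rfl, h⟩
    · rw [place_block i o p hp, place_hub]
      exact h
  · rcases hq with hq | rfl
    · rw [place_block i o q hq, place_hub]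
      exact h
    · exact (h.1 rfl).elim

lemma place_inj (i : Fin N) (o : VV S T N r) (ho : o ≠ none)
    (ho' : ∀ x : Fin (S + T), o ≠ some (.inl (i, x))) {p q : ℕ} (hp : p ≤ S + T + 1)
    (hq : q ≤ S + T + 1) (hpq : p ≠ q) : place i o p ≠ place i o q := by
  have h3 : ∀ p, p ≤ S + T + 1 → p < S + T ∨ p = S + T ∨ p = S + T + 1 := by omega
  rcases h3 p hp with hp | rfl | rfl <;> rcases h3 q hq with hq | rfl | rfl
  · rw [place_block i o p hp, place_block i o q hq]
    intro h
    simp only [Option.some.injEq, Sum.inl.injEq, Prod.mk.injEq, Fin.mk.injEq, true_and] at h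
    exact hpq h
  · rw [place_block i o p hp, place_hub]; simp
  · rw [place_block i o p hp, place_out]; exact (ho' _).symm
  · rw [place_block i o q hq, place_hub]; simp
  · exact (hpq rfl).elim
  · rw [place_hub, place_out]; exact ho.symm
  · rw [place_block i o q hq, place_out]; exact ho' _
  · rw [place_hub, place_out]; exact ho
  · exact (hpq rfl).elim

/-- Embedding of the virus from local names. -/
lemma embed (i : Fin N) (o : VV S T N r) (ho : o ≠ none)
    (ho' : ∀ x : Fin (S + T), o ≠ some (.inl (i, x))) (u v : VV S T N r) (f g : ℕ → ℕ)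
    (hfb : ∀ a, a < T + 1 → f a ≤ S + T + 1) (hgb : ∀ a, a < S + 1 → g a ≤ S + T + 1)
    (hf : ∀ a b, a < T + 1 → b < T + 1 → a ≠ b → f a ≠ f b)
    (hg : ∀ a b, a < S + 1 → b < S + 1 → a ≠ b → g a ≠ g b)
    (hfg : ∀ a b, a < T + 1 → b < S + 1 → f a ≠ g b)
    (hc : ∀ a b, a < T + 1 → b < T + 1 → a < b → ladj S T (f a) (f b) ∨
      (GV S T N r ⊔ SimpleGraph.edge u v).Adj (place i o (f a)) (place i o (f b)))
    (hp : ∀ a, a < T + 1 → a < S + 1 → ladj S T (f a) (g a) ∨
      (GV S T N r ⊔ SimpleGraph.edge u v).Adj (place i o (f a)) (place i o (g a))) :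
    (virus (S + 1) (T + 1)).IsContained (GV S T N r ⊔ SimpleGraph.edge u v) := by
  have up : ∀ p q, (ladj S T p q ∨
      (GV S T N r ⊔ SimpleGraph.edge u v).Adj (place i o p) (place i o q)) →
      (GV S T N r ⊔ SimpleGraph.edge u v).Adj (place i o p) (place i o q) := by
    intro p q h
    rcases h with h | h
    · rw [SimpleGraph.sup_adj]; exact Or.inl (place_adj i o h)
    · exact h
  refine contained_of _ _ _ (fun a => place i o (f a)) (fun a => place i o (g a)) ?_ ?_ ?_ ?_ ?_
  · intro a b ha hb hab
    exact place_inj i o ho ho' (hfb a ha) (hfb b hb) (hf a b ha hb hab)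
  · intro a b ha hb hab
    exact place_inj i o ho ho' (hgb a ha) (hgb b hb) (hg a b ha hb hab)
  · intro a b ha hb
    exact place_inj i o ho ho' (hfb a ha) (hgb b hb) (hfg a b ha hb)
  · intro a b ha hb hab
    rcases lt_or_gt_of_ne hab with h | h
    · exact up _ _ (hc a b ha hb h)
    · exact (up _ _ (hc b a hb ha h)).symm
  · intro a ha hb
    exact up _ _ (hp a ha hb)

lemma edge_adj' {V : Type} (G : SimpleGraph V) {u v : V} (h : u ≠ v) :
    (G ⊔ SimpleGraph.edge u v).Adj u v := by
  rw [SimpleGraph.sup_adj, SimpleGraph.edge_adj]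
  exact Or.inr ⟨Or.inl ⟨rfl, rfl⟩, h⟩

/-- An edge from a vertex `x` of the block `i` to a vertex `o` outside the block, `x < S`. -/
lemma sat1a (hS : 3 ≤ S) (hST : S < T) (i : Fin N) (x : Fin (S + T)) (hx : (x : ℕ) < S)
    (o : VV S T N r) (ho : o ≠ none) (ho' : ∀ x : Fin (S + T), o ≠ some (.inl (i, x))) :
    (virus (S + 1) (T + 1)).IsContained (GV S T N r ⊔ SimpleGraph.edge (some (.inl (i, x))) o) := by
  have hx2 : place i o (x : ℕ) = some (.inl (i, x)) := by rw [place_block i o x x.2]
  refine embed i o ho ho' _ _ (fun k => if k = 0 then (x : ℕ) else S + k - 1)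
    (fun k => if k = 0 then S + T + 1 else if k = 1 then S + T else
      if k - 2 < x then k - 2 else k - 1) ?_ ?_ ?_ ?_ ?_ ?_ ?_
  · intro a ha; split_ifs <;> omega
  · intro a ha; split_ifs <;> omega
  · intro a b ha hb hab; split_ifs <;> omega
  · intro a b ha hb hab; split_ifs <;> omega
  · intro a b ha hb; split_ifs <;> omega
  · intro a b ha hb hab; left; unfold ladj; split_ifs <;> omega
  · intro a ha ha'
    by_cases h0 : a = 0
    · right
      subst h0
      simp only [if_true]
      rw [place_out, hx2]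
      exact edge_adj' _ (ho' x).symm
    · left
      unfold ladj
      split_ifs <;> omega

lemma sat1b (hS : 3 ≤ S) (hST : S < T) (i : Fin N) (x : Fin (S + T)) (hx : S ≤ (x : ℕ))
    (o : VV S T N r) (ho : o ≠ none) (ho' : ∀ x : Fin (S + T), o ≠ some (.inl (i, x))) :
    (virus (S + 1) (T + 1)).IsContained (GV S T N r ⊔ SimpleGraph.edge (some (.inl (i, x))) o) := by
  have hx1 := x.2
  have hx2 : place i o (x : ℕ) = some (.inl (i, x)) := by rw [place_block i o x x.2]
  refine embed i o ho ho' _ _ (fun k => if k = 0 then (x : ℕ) else if k = 1 then 0 else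
      if S + (k - 2) < x then S + (k - 2) else S + (k - 1))
    (fun k => if k = 0 then S + T + 1 else if k = 1 then S + T else k - 1) ?_ ?_ ?_ ?_ ?_ ?_ ?_
  · intro a ha; split_ifs <;> omega
  · intro a ha; split_ifs <;> omega
  · intro a b ha hb hab; split_ifs <;> omega
  · intro a b ha hb hab; split_ifs <;> omega
  · intro a b ha hb; split_ifs <;> omega
  · intro a b ha hb hab; left; unfold ladj; split_ifs <;> omega
  · intro a ha ha'
    by_cases h0 : a = 0
    · right
      subst h0
      simp only [if_true]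
      rw [place_out, hx2]
      exact edge_adj' _ (ho' x).symm
    · left
      unfold ladj
      split_ifs <;> omega

/-- An edge between the hub and a vertex of the block `i`; `j` is another block. -/
lemma sat2 (hS : 3 ≤ S) (hST : S < T) {i j : Fin N} (hij : i ≠ j) (x : Fin (S + T))
    (hx : S + T ≤ (x : ℕ) + 2) :
    (virus (S + 1) (T + 1)).IsContained (GV S T N r ⊔ SimpleGraph.edge none (some (.inl (i, x)))) := by
  have hx1 := x.2
  have hz : 0 < S + T := by omega
  set o : VV S T N r := some (.inl (j, ⟨0, hz⟩)) with ho_def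
  have ho : o ≠ none := by simp [ho_def]
  have ho' : ∀ x : Fin (S + T), o ≠ some (.inl (i, x)) := by
    intro x h
    simp only [ho_def, Option.some.injEq, Sum.inl.injEq, Prod.mk.injEq] at h
    exact hij h.1.symm
  have hx2 : place i o (x : ℕ) = some (.inl (i, x)) := by rw [place_block i o x x.2]
  have hho : (GV S T N r).Adj none o := by
    change ladj S T (S + T) 0
    unfold ladj
    omega
  refine embed i o ho ho' _ _ (fun k => if k = 0 then S + T else if k = 1 then (x : ℕ) else
      if k = T then 0 else S + (k - 2))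
    (fun k => if k = 0 then S + T + 1 else if k = 1 then 2 * (S + T) - 3 - x else k - 1)
    ?_ ?_ ?_ ?_ ?_ ?_ ?_
  · intro a ha; split_ifs <;> omega
  · intro a ha; split_ifs <;> omega
  · intro a b ha hb hab; split_ifs <;> omega
  · intro a b ha hb hab; split_ifs <;> omega
  · intro a b ha hb; split_ifs <;> omega
  · intro a b ha hb hab
    by_cases h0 : a = 0 ∧ b = 1
    · right
      obtain ⟨rfl, rfl⟩ := h0
      simp only [if_true, one_ne_zero, if_false]
      rw [place_hub, hx2]
      exact edge_adj' _ (by simp)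
    · left; unfold ladj; split_ifs <;> omega
  · intro a ha ha'
    by_cases h0 : a = 0
    · right
      subst h0
      simp only [if_true]
      rw [place_out, place_hub, SimpleGraph.sup_adj]
      exact Or.inl hho
    · left
      unfold ladj
      split_ifs <;> omega

/-- An edge between two independent vertices of the block `i`. -/
lemma sat3 (hS : 3 ≤ S) (hST : S < T) {i j : Fin N} (hij : i ≠ j) (x y : Fin (S + T))
    (hxy : (x : ℕ) < y) (hy : (y : ℕ) < S) :
    (virus (S + 1) (T + 1)).IsContained
      (GV S T N r ⊔ SimpleGraph.edge (some (.inl (i, x))) (some (.inl (i, y)))) := by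
  have hz : 0 < S + T := by omega
  set o : VV S T N r := some (.inl (j, ⟨0, hz⟩)) with ho_def
  have ho : o ≠ none := by simp [ho_def]
  have ho' : ∀ x : Fin (S + T), o ≠ some (.inl (i, x)) := by
    intro x h
    simp only [ho_def, Option.some.injEq, Sum.inl.injEq, Prod.mk.injEq] at h
    exact hij h.1.symm
  have hx2 : place i o (x : ℕ) = some (.inl (i, x)) := by rw [place_block i o x x.2]
  have hy2 : place i o (y : ℕ) = some (.inl (i, y)) := by rw [place_block i o y y.2]
  have hho : (GV S T N r).Adj none o := by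
    change ladj S T (S + T) 0
    unfold ladj
    omega
  refine embed i o ho ho' _ _ (fun k => if k = 0 then S + T else if k = 1 then (x : ℕ) else
      if k = 2 then (y : ℕ) else S + (k - 3))
    (fun k => if k = 0 then S + T + 1 else if k = 1 then S + T - 2 else if k = 2 then S + T - 1 else
      if k - 3 < x then k - 3 else if k - 2 < y then k - 2 else k - 1)
    ?_ ?_ ?_ ?_ ?_ ?_ ?_
  · intro a ha; split_ifs <;> omega
  · intro a ha; split_ifs <;> omega
  · intro a b ha hb hab; split_ifs <;> omega
  · intro a b ha hb hab; split_ifs <;> omega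
  · intro a b ha hb; split_ifs <;> omega
  · intro a b ha hb hab
    by_cases h0 : a = 1 ∧ b = 2
    · right
      obtain ⟨rfl, rfl⟩ := h0
      simp only [if_true, one_ne_zero, if_false, OfNat.ofNat_ne_zero, OfNat.ofNat_ne_one]
      rw [hx2, hy2]
      refine edge_adj' _ ?_
      intro h
      simp only [Option.some.injEq, Sum.inl.injEq, Prod.mk.injEq, true_and] at h
      rw [h] at hxy
      exact lt_irrefl _ hxy
    · left; unfold ladj; split_ifs <;> omega
  · intro a ha ha'
    by_cases h0 : a = 0
    · right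
      subst h0
      simp only [if_true]
      rw [place_out, place_hub, SimpleGraph.sup_adj]
      exact Or.inl hho
    · left
      unfold ladj
      split_ifs <;> omega

/-- Names in a complete block. -/
def place' (i : Fin r) (o : VV S T N r) (p : ℕ) : VV S T N r :=
  if h : p < S + T + 1 then some (.inr (i, ⟨p, h⟩)) else o

/-- An edge from a vertex `x` of the complete block `i` to a vertex `o` outside the block. -/
lemma sat4 (i : Fin r) (x : Fin (S + T + 1))
    (o : VV S T N r) (ho' : ∀ x : Fin (S + T + 1), o ≠ some (.inr (i, x))) :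
    (virus (S + 1) (T + 1)).IsContained (GV S T N r ⊔ SimpleGraph.edge (some (.inr (i, x))) o) := by
  have hx1 := x.2
  have hb : ∀ p (h : p < S + T + 1), place' i o p = some (.inr (i, ⟨p, h⟩)) := by
    intro p h; unfold place'; rw [dif_pos h]
  have hout : place' i o (S + T + 1) = o := by unfold place'; rw [dif_neg (by omega)]
  have hadj : ∀ p q, p < S + T + 1 → q < S + T + 1 → p ≠ q →
      (GV S T N r ⊔ SimpleGraph.edge (some (.inr (i, x))) o).Adj (place' i o p) (place' i o q) := by
    intro p q hp hq hpq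
    rw [hb p hp, hb q hq, SimpleGraph.sup_adj]
    left
    exact ⟨rfl, fun h => hpq (by simpa using h)⟩
  have hinj : ∀ p q, p ≤ S + T + 1 → q ≤ S + T + 1 → p ≠ q → place' i o p ≠ place' i o q := by
    intro p q hp hq hpq
    rcases Nat.lt_or_ge p (S + T + 1) with h1 | h1
    · rcases Nat.lt_or_ge q (S + T + 1) with h2 | h2
      · rw [hb p h1, hb q h2]
        intro h
        simp only [Option.some.injEq, Sum.inr.injEq, Prod.mk.injEq, Fin.mk.injEq, true_and] at h
        exact hpq h
      · obtain rfl : q = S + T + 1 := by omega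
        rw [hb p h1, hout]
        exact (ho' _).symm
    · obtain rfl : p = S + T + 1 := by omega
      have h2 : q < S + T + 1 := by omega
      rw [hb q h2, hout]
      exact ho' _
  let σ : ℕ → ℕ := fun k => if k = 0 then (x : ℕ) else if k ≤ x then k - 1 else k
  have hσb : ∀ k, k < S + T + 1 → σ k < S + T + 1 := by
    intro k hk; simp only [σ]; split_ifs <;> omega
  have hσi : ∀ k l, k ≠ l → σ k ≠ σ l := by
    intro k l hkl; simp only [σ]; split_ifs <;> omega
  refine contained_of _ _ _ (fun k => place' i o (σ k))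
    (fun k => place' i o (if k = 0 then S + T + 1 else σ (T + k))) ?_ ?_ ?_ ?_ ?_
  · intro a b ha hb hab
    have h1 := hσb a (by omega)
    have h2 := hσb b (by omega)
    exact hinj _ _ (by omega) (by omega) (hσi a b hab)
  · intro a b ha hb hab
    split_ifs with h1 h2 h2
    · omega
    · have := hσb (T + b) (by omega)
      exact hinj _ _ (by omega) (by omega) (by omega)
    · have := hσb (T + a) (by omega)
      exact hinj _ _ (by omega) (by omega) (by omega)
    · have h3 := hσb (T + b) (by omega)
      have h4 := hσb (T + a) (by omega)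
      exact hinj _ _ (by omega) (by omega) (hσi _ _ (by omega))
  · intro a b ha hb
    have h1 := hσb a (by omega)
    split_ifs with h2
    · exact hinj _ _ (by omega) (by omega) (by omega)
    · have h3 := hσb (T + b) (by omega)
      exact hinj _ _ (by omega) (by omega) (hσi _ _ (by omega))
  · intro a b ha hb hab
    exact hadj _ _ (hσb a (by omega)) (hσb b (by omega)) (hσi a b hab)
  · intro a ha ha'
    split_ifs with h2
    · subst h2
      have : σ 0 = x := by simp [σ]
      rw [this, hout, hb x x.2]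
      exact edge_adj' _ (ho' x).symm
    · exact hadj _ _ (hσb a (by omega)) (hσb (T + a) (by omega)) (hσi _ _ (by omega))

/-- The graph has no copy of the virus `K_{T+1}^{S+1}`. -/
lemma free (hS : 3 ≤ S) (hST : S < T) :
    ¬ (virus (S + 1) (T + 1)).IsContained (GV S T N r) := by
  rintro ⟨φ⟩
  have hadj : ∀ x y, (virus (S + 1) (T + 1)).Adj x y → (GV S T N r).Adj (φ x) (φ y) :=
    fun x y h => φ.toHom.map_adj h
  have hinj : Function.Injective φ := φ.injective
  -- the clique avoids the hub
  have hhub : ∀ a : Fin (T + 1), φ (.inl a) ≠ none := by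
    intro a ha
    -- the other vertices are in one ordinary block
    have hother : ∀ i : Fin T, ∃ j x, φ (.inl (a.succAbove i)) = some (.inl (j, x)) ∧
        (x : ℕ) + 2 < S + T := by
      intro i
      have h1 := hadj (.inl a) (.inl (a.succAbove i)) (Fin.succAbove_ne a i).symm
      rw [ha] at h1
      rcases h : φ (.inl (a.succAbove i)) with _ | ⟨j, x⟩ | ⟨j, x⟩
      · rw [h] at h1; exact h1.elim
      · rw [h] at h1
        refine ⟨j, x, rfl, ?_⟩
        have h2 : ladj S T (S + T) x := h1
        unfold ladj at h2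
        omega
      · rw [h] at h1; exact h1.elim
    choose j x hx hlt using hother
    have hl : ∀ k l, k ≠ l → ladj S T (x k) (x l) := by
      intro k l hkl
      have h1 : a.succAbove k ≠ a.succAbove l := fun h => hkl (Fin.succAbove_right_injective h)
      have h2 := hadj (.inl (a.succAbove k)) (.inl (a.succAbove l)) h1
      rw [hx, hx] at h2
      exact h2.2
    -- send the independent vertices to `0`
    let ψ : Fin T → Fin (T - 1) := fun k => ⟨(x k : ℕ) + 1 - S, by have := hlt k; omega⟩
    have hψ : Function.Injective ψ := by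
      intro k l hkl
      by_contra hne
      have h1 := hl k l hne
      have h2 : (x k : ℕ) + 1 - S = (x l : ℕ) + 1 - S := by
        have := congrArg Fin.val hkl
        exact this
      unfold ladj at h1
      omega
    have := Fintype.card_le_of_injective ψ hψ
    rw [Fintype.card_fin, Fintype.card_fin] at this
    omega
  -- an ordinary or a complete block
  rcases h0 : φ (.inl 0) with _ | ⟨i0, x0⟩ | ⟨i0, x0⟩
  · exact hhub 0 h0
  · have hclique : ∀ a : Fin (T + 1), ∃ x, φ (.inl a) = some (.inl (i0, x)) := by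
      intro a
      by_cases ha : a = 0
      · subst ha; exact ⟨x0, h0⟩
      · have h1 := hadj (.inl 0) (.inl a) (fun h => ha h.symm)
        rw [h0] at h1
        rcases h : φ (.inl a) with _ | ⟨i, x⟩ | ⟨i, x⟩
        · exact absurd h (hhub a)
        · rw [h] at h1
          have h2 : i0 = i := h1.1
          subst h2
          exact ⟨x, rfl⟩
        · rw [h] at h1; exact h1.elim
    have hleaf : ∀ b : Fin (S + 1), φ (.inr b) = none ∨ ∃ x, φ (.inr b) = some (.inl (i0, x)) := by
      intro b
      obtain ⟨y, hy⟩ := hclique ⟨b, by omega⟩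
      have h1 := hadj (.inl ⟨b, by omega⟩) (.inr b) rfl
      rw [hy] at h1
      rcases h : φ (.inr b) with _ | ⟨i, x⟩ | ⟨i, x⟩
      · exact Or.inl rfl
      · rw [h] at h1
        have h2 : i0 = i := h1.1
        subst h2
        exact Or.inr ⟨x, rfl⟩
      · rw [h] at h1; exact h1.elim
    let ι : Option (Fin (S + T)) → VV S T N r := fun o => o.map (fun x => .inl (i0, x))
    have hall : ∀ v : Fin (T + 1) ⊕ Fin (S + 1), ∃ o : Option (Fin (S + T)), ι o = φ v := by
      rintro (a | b)
      · obtain ⟨x, hx⟩ := hclique a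
        exact ⟨some x, by rw [hx]; rfl⟩
      · rcases hleaf b with h | ⟨x, hx⟩
        · exact ⟨none, by rw [h]; rfl⟩
        · exact ⟨some x, by rw [hx]; rfl⟩
    choose g hg using hall
    have hginj : Function.Injective g := by
      intro v w h
      apply hinj
      rw [← hg v, ← hg w, h]
    have := Fintype.card_le_of_injective g hginj
    simp only [Fintype.card_sum, Fintype.card_fin, Fintype.card_option] at this
    omega
  · have hclique : ∀ a : Fin (T + 1), ∃ x, φ (.inl a) = some (.inr (i0, x)) := by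
      intro a
      by_cases ha : a = 0
      · subst ha; exact ⟨x0, h0⟩
      · have h1 := hadj (.inl 0) (.inl a) (fun h => ha h.symm)
        rw [h0] at h1
        rcases h : φ (.inl a) with _ | ⟨i, x⟩ | ⟨i, x⟩
        · exact absurd h (hhub a)
        · rw [h] at h1; exact h1.elim
        · rw [h] at h1
          have h2 : i0 = i := h1.1
          subst h2
          exact ⟨x, rfl⟩
    have hall : ∀ v : Fin (T + 1) ⊕ Fin (S + 1), ∃ x : Fin (S + T + 1),
        (some (.inr (i0, x)) : VV S T N r) = φ v := by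
      rintro (a | b)
      · obtain ⟨x, hx⟩ := hclique a
        exact ⟨x, hx.symm⟩
      · obtain ⟨y, hy⟩ := hclique ⟨b, by omega⟩
        have h1 := hadj (.inl ⟨b, by omega⟩) (.inr b) rfl
        rw [hy] at h1
        rcases h : φ (.inr b) with _ | ⟨i, x⟩ | ⟨i, x⟩
        · rw [h] at h1; exact h1.elim
        · rw [h] at h1; exact h1.elim
        · rw [h] at h1
          have h2 : i0 = i := h1.1
          subst h2
          exact ⟨x, rfl⟩
    choose g hg using hall
    have hginj : Function.Injective g := by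
      intro v w h
      apply hinj
      rw [← hg v, ← hg w, h]
    have := Fintype.card_le_of_injective g hginj
    simp only [Fintype.card_sum, Fintype.card_fin] at this
    omega

/-- The graph is saturated. -/
theorem isSat (hS : 3 ≤ S) (hST : S < T) (hN : 2 ≤ N) :
    IsSat (virus (S + 1) (T + 1)) (GV S T N r) := by
  have hother : ∀ i : Fin N, ∃ j : Fin N, i ≠ j := by
    intro i
    by_cases h : (i : ℕ) = 0
    · exact ⟨⟨1, by omega⟩, fun h' => by rw [h'] at h; simp at h⟩
    · exact ⟨⟨0, by omega⟩, fun h' => h (by rw [h'])⟩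
  refine ⟨free hS hST, ?_⟩
  have sat1 : ∀ (i : Fin N) (x : Fin (S + T)) (o : VV S T N r), o ≠ none →
      (∀ x : Fin (S + T), o ≠ some (.inl (i, x))) →
      (virus (S + 1) (T + 1)).IsContained
        (GV S T N r ⊔ SimpleGraph.edge (some (.inl (i, x))) o) := by
    intro i x o ho ho'
    rcases Nat.lt_or_ge x S with h | h
    · exact sat1a hS hST i x h o ho ho'
    · exact sat1b hS hST i x h o ho ho'
  have hhub : ∀ (i : Fin N) (x : Fin (S + T)), ¬ (GV S T N r).Adj none (some (.inl (i, x))) →
      S + T ≤ (x : ℕ) + 2 := by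
    intro i x h
    by_contra hlt
    apply h
    change ladj S T (S + T) x
    unfold ladj
    omega
  intro u v huv hadj
  rcases u with _ | ⟨i, x⟩ | ⟨i, x⟩ <;> rcases v with _ | ⟨j, y⟩ | ⟨j, y⟩
  · exact absurd rfl huv
  · obtain ⟨k, hk⟩ := hother j
    exact sat2 hS hST hk y (hhub j y hadj)
  · rw [SimpleGraph.edge_comm]
    exact sat4 j y none (by simp)
  · obtain ⟨k, hk⟩ := hother i
    rw [SimpleGraph.edge_comm]
    exact sat2 hS hST hk x (hhub i x (fun h => hadj h.symm))
  · by_cases hij : i = j
    · subst hij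
      obtain ⟨k, hk⟩ := hother i
      have hxy : (x : ℕ) ≠ y := fun h => huv (by rw [Fin.ext h])
      have h3 : ¬ ladj S T x y := fun h => hadj ⟨rfl, h⟩
      have hx := x.2
      have hy := y.2
      unfold ladj at h3
      rcases lt_or_gt_of_ne hxy with h | h
      · exact sat3 hS hST hk x y h (by omega)
      · rw [SimpleGraph.edge_comm]
        exact sat3 hS hST hk y x h (by omega)
    · refine sat1 i x _ (by simp) ?_
      intro z h
      simp only [Option.some.injEq, Sum.inl.injEq, Prod.mk.injEq] at h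
      exact hij h.1.symm
  · exact sat1 i x _ (by simp) (by simp)
  · exact sat4 i x none (by simp)
  · rw [SimpleGraph.edge_comm]
    exact sat1 j y _ (by simp) (by simp)
  · by_cases hij : i = j
    · subst hij
      exact absurd ⟨rfl, fun h => huv (by rw [h])⟩ hadj
    · refine sat4 i x _ ?_
      intro z h
      simp only [Option.some.injEq, Sum.inr.injEq, Prod.mk.injEq] at h
      exact hij h.1.symm

/-! ### The number of edges -/

/-- The number of edges of a block together with the edges from the block to the hub. -/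
def e1 (S T : ℕ) : ℕ := ∑ q ∈ Finset.Ico S (S + T), q + (S + T - 2)

lemma edges (hS : 3 ≤ S) (hST : S < T) :
    (GV S T N r).edgeSet.ncard ≤ N * e1 S T + r * ∑ q ∈ Finset.range (S + T + 1), q := by
  classical
  let L1 : Finset (Σ _ : ℕ, ℕ) := (Finset.Ico S (S + T)).sigma (fun q => Finset.range q)
  let L2 : Finset (Σ _ : ℕ, ℕ) := ({S + T} : Finset ℕ).sigma (fun _ => Finset.range (S + T - 2))
  let L3 : Finset (Σ _ : ℕ, ℕ) := (Finset.range (S + T + 1)).sigma (fun q => Finset.range q)
  let A : Finset (Sym2 (VV S T N r)) := ((Finset.univ : Finset (Fin N)) ×ˢ (L1 ∪ L2)).image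
    (fun z => s(place z.1 none z.2.1, place z.1 none z.2.2))
  let B : Finset (Sym2 (VV S T N r)) := ((Finset.univ : Finset (Fin r)) ×ˢ L3).image
    (fun z => s(place' z.1 none z.2.1, place' z.1 none z.2.2))
  have hA : A.card ≤ N * e1 S T := by
    refine Finset.card_image_le.trans ?_
    rw [Finset.card_product, Finset.card_univ, Fintype.card_fin]
    refine Nat.mul_le_mul_left _ ((Finset.card_union_le _ _).trans ?_)
    simp only [L1, L2, Finset.card_sigma, Finset.card_range, Finset.sum_singleton, e1]
    exact le_rfl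
  have hB : B.card ≤ r * ∑ q ∈ Finset.range (S + T + 1), q := by
    refine Finset.card_image_le.trans ?_
    rw [Finset.card_product, Finset.card_univ, Fintype.card_fin]
    simp only [L3, Finset.card_sigma, Finset.card_range]
    exact le_rfl
  have key1 : ∀ (i : Fin N) (p q : ℕ), ladj S T p q → p < q →
      s(place i none q, place i none p) ∈ A := by
    intro i p q h hpq
    refine Finset.mem_image.2 ⟨(i, ⟨q, p⟩), ?_, rfl⟩
    rw [Finset.mem_product]
    refine ⟨Finset.mem_univ _, ?_⟩
    simp only [L1, L2, Finset.mem_union, Finset.mem_sigma, Finset.mem_Ico, Finset.mem_range,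
      Finset.mem_singleton]
    unfold ladj at h
    omega
  have key2 : ∀ (i : Fin N) (p q : ℕ), ladj S T p q →
      s(place i none q, place i none p) ∈ A := by
    intro i p q h
    rcases lt_or_gt_of_ne h.1 with h1 | h1
    · exact key1 i p q h h1
    · rw [Sym2.eq_swap]
      exact key1 i q p (ladj_symm h) h1
  have hb : ∀ (i : Fin r) (x : Fin (S + T + 1)),
      (place' i none x : VV S T N r) = some (.inr (i, x)) := by
    intro i x; unfold place'; rw [dif_pos x.2]
  have key3 : ∀ (i : Fin r) (x y : Fin (S + T + 1)), x ≠ y →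
      s((some (.inr (i, x)) : VV S T N r), some (.inr (i, y))) ∈ B := by
    intro i x y hxy
    have hx := x.2
    have hy := y.2
    rcases lt_or_gt_of_ne (fun h => hxy (Fin.ext h) : (x : ℕ) ≠ y) with h1 | h1
    · rw [Sym2.eq_swap, ← hb, ← hb]
      refine Finset.mem_image.2 ⟨(i, ⟨(y : ℕ), (x : ℕ)⟩), ?_, rfl⟩
      simp only [L3, Finset.mem_product, Finset.mem_univ, Finset.mem_sigma, Finset.mem_range,
        true_and]
      omega
    · rw [← hb, ← hb]
      refine Finset.mem_image.2 ⟨(i, ⟨(x : ℕ), (y : ℕ)⟩), ?_, rfl⟩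
      simp only [L3, Finset.mem_product, Finset.mem_univ, Finset.mem_sigma, Finset.mem_range,
        true_and]
      omega
  have hsub : (GV S T N r).edgeSet ⊆ ((A ∪ B : Finset (Sym2 (VV S T N r))) :
      Set (Sym2 (VV S T N r))) := by
    intro f hf
    rw [Finset.mem_coe, Finset.mem_union]
    induction f using Sym2.ind with
    | _ u v =>
      have hf' : adjV S T N r u v := hf
      rcases u with _ | ⟨i, x⟩ | ⟨i, x⟩ <;> rcases v with _ | ⟨j, y⟩ | ⟨j, y⟩
      · exact hf'.elim
      · left
        have := key2 j y (S + T) (ladj_symm hf')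
        rw [place_hub, place_block _ _ _ y.2] at this
        exact this
      · exact hf'.elim
      · left
        have := key2 i (S + T) x (ladj_symm hf')
        rw [place_hub, place_block _ _ _ x.2] at this
        exact this
      · left
        obtain ⟨rfl, h⟩ := hf'
        have := key2 i y x (ladj_symm h)
        rw [place_block _ _ _ x.2, place_block _ _ _ y.2] at this
        exact this
      · exact hf'.elim
      · exact hf'.elim
      · exact hf'.elim
      · right
        obtain ⟨rfl, h⟩ := hf'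
        exact key3 i x y h
  calc (GV S T N r).edgeSet.ncard ≤ ((A ∪ B : Finset (Sym2 (VV S T N r))) :
        Set (Sym2 (VV S T N r))).ncard := Set.ncard_le_ncard hsub (Set.toFinite _)
    _ = (A ∪ B).card := Set.ncard_coe_finset _
    _ ≤ A.card + B.card := Finset.card_union_le _ _
    _ ≤ _ := by omega

lemma two_e1 : (2 : ℝ) * e1 S T + 4 = ((S : ℝ) + T) * (S + T - 1) - S * (S - 1) + 2 * (S + T) ∨
    S + T < 2 := by
  by_cases h : S + T < 2
  · exact Or.inr h
  · left
    have h1 : ∑ q ∈ Finset.range S, q + ∑ q ∈ Finset.Ico S (S + T), q =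
        ∑ q ∈ Finset.range (S + T), q := by
      rw [Finset.range_eq_Ico, Finset.range_eq_Ico]
      exact Finset.sum_Ico_consecutive _ (by omega) (by omega)
    have h2 : ∀ m : ℕ, (2 : ℝ) * ((∑ q ∈ Finset.range m, q : ℕ) : ℝ) = m * (m - 1) := by
      intro m
      induction m with
      | zero => simp
      | succ m ih =>
        rw [Finset.sum_range_succ]
        push_cast at ih ⊢
        linarith
    have h3 := h2 S
    have h4 := h2 (S + T)
    have h5 : ((∑ q ∈ Finset.range S, q : ℕ) : ℝ) + ((∑ q ∈ Finset.Ico S (S + T), q : ℕ) : ℝ) =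
        ((∑ q ∈ Finset.range (S + T), q : ℕ) : ℝ) := by exact_mod_cast h1
    have h6 : ((e1 S T : ℕ) : ℝ) = ((∑ q ∈ Finset.Ico S (S + T), q : ℕ) : ℝ) + (S + T - 2) := by
      unfold e1
      rw [Nat.cast_add, Nat.cast_sub (by omega)]
      push_cast
      ring
    rw [h6]
    have h7 : (((S + T : ℕ)) : ℝ) = (S : ℝ) + T := by push_cast; ring
    rw [h7] at h4
    linarith

theorem exists_sat (hS : 3 ≤ S) (hST : S < T) (hD : (T : ℝ) ≤ ((S : ℝ) - 1) ^ 2 + 3) (n : ℕ)
    (hn : (S + T + 2) ^ 2 ≤ n) :
    ∃ G : SimpleGraph (Fin n), IsSat (virus (S + 1) (T + 1)) G ∧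
      2 * ((S : ℝ) + T) * (G.edgeSet.ncard : ℝ) ≤
        (((S : ℝ) + T) ^ 2 - (((S : ℝ) - 1) ^ 2 + 3 - T)) * n +
          (((S : ℝ) - 1) ^ 2 + 3 - T) * (S + T) ^ 2 := by
  obtain ⟨b, hb⟩ : ∃ b, b = S + T := ⟨_, rfl⟩
  have hb0 : 0 < b := by omega
  obtain ⟨q, hq⟩ : ∃ q, q = (n - 1) / b := ⟨_, rfl⟩
  obtain ⟨r, hr⟩ : ∃ r, r = (n - 1) % b := ⟨_, rfl⟩
  have hqr : b * q + r = n - 1 := by rw [hq, hr]; exact Nat.div_add_mod _ _
  have hrb : r < b := by rw [hr]; exact Nat.mod_lt _ hb0
  rw [← hb] at hn
  have hq2 : b + 2 ≤ q := by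
    by_contra hlt
    have h1 : q ≤ b + 1 := by omega
    have h2 : b * q ≤ b * (b + 1) := Nat.mul_le_mul_left _ h1
    have h3 : (b + 2) ^ 2 = b * (b + 1) + (3 * b + 4) := by ring
    omega
  obtain ⟨N, hN⟩ : ∃ N, q = N + r := ⟨q - r, by omega⟩
  have hN2 : 2 ≤ N := by omega
  have hn1 : 1 ≤ n := by
    have : 0 < (b + 2) ^ 2 := by positivity
    omega
  have hcard : n = N * b + r * (b + 1) + 1 := by
    rw [hN] at hqr
    have : b * (N + r) + r = N * b + r * (b + 1) := by ring
    omega
  have hc : Fintype.card (VV S T N r) = n := by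
    rw [Fintype.card_option, Fintype.card_sum, Fintype.card_prod, Fintype.card_prod,
      Fintype.card_fin, Fintype.card_fin, Fintype.card_fin, Fintype.card_fin, hcard, hb]
  let e : VV S T N r ≃ Fin n := Fintype.equivFinOfCardEq hc
  refine ⟨(GV S T N r).map e, isSat_iso (SimpleGraph.Iso.map e _) (isSat hS hST hN2), ?_⟩
  have hE : ((GV S T N r).map e).edgeSet.ncard = (GV S T N r).edgeSet.ncard := by
    have : ((GV S T N r).map e).edgeSet = (Sym2.map e) '' (GV S T N r).edgeSet :=
      SimpleGraph.edgeSet_map e.toEmbedding _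
    rw [this, Set.ncard_image_of_injective _ (Sym2.map.injective e.injective)]
  rw [hE]
  have h1 : ((GV S T N r).edgeSet.ncard : ℝ) ≤
      N * (e1 S T : ℝ) + r * ((∑ q ∈ Finset.range (S + T + 1), q : ℕ) : ℝ) := by
    exact_mod_cast edges (N := N) (r := r) hS hST
  have h2 : (2 : ℝ) * e1 S T + 4 = ((S : ℝ) + T) * (S + T - 1) - S * (S - 1) + 2 * (S + T) := by
    rcases two_e1 (S := S) (T := T) with h | h
    · exact h
    · omega
  have h3 : (2 : ℝ) * ((∑ q ∈ Finset.range (S + T + 1), q : ℕ) : ℝ) = (S + T + 1) * (S + T) := by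
    have : ∀ m : ℕ, (2 : ℝ) * ((∑ q ∈ Finset.range (m + 1), q : ℕ) : ℝ) = (m + 1) * m := by
      intro m
      induction m with
      | zero => simp
      | succ m ih =>
        rw [Finset.sum_range_succ]
        push_cast at ih ⊢
        linarith
    have h4 := this (S + T)
    push_cast at h4 ⊢
    linarith
  have hbR : (b : ℝ) = S + T := by rw [hb]; push_cast; ring
  have hnR : (n : ℝ) = N * b + r * (b + 1) + 1 := by rw [hcard]; push_cast; ring
  have hrR : (r : ℝ) ≤ b - 1 := by
    have : r + 1 ≤ b := hrb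
    have : ((r + 1 : ℕ) : ℝ) ≤ b := by exact_mod_cast this
    push_cast at this
    linarith
  have hb0R : (0 : ℝ) < b := by exact_mod_cast hb0
  obtain ⟨D, hDD⟩ : ∃ D : ℝ, D = ((S : ℝ) - 1) ^ 2 + 3 - T := ⟨_, rfl⟩
  have hD0 : 0 ≤ D := by rw [hDD]; linarith
  rw [← hDD, ← hbR]
  have h5 : (2 : ℝ) * e1 S T = b ^ 2 - D := by
    rw [hDD, hbR]
    linear_combination h2
  have h6 : (2 : ℝ) * ((∑ q ∈ Finset.range (S + T + 1), q : ℕ) : ℝ) = (b + 1) * b := by
    rw [h3, hbR]
  -- 2 E ≤ N (b² - D) + r (b + 1) b
  have h7 : 2 * ((GV S T N r).edgeSet.ncard : ℝ) ≤ N * (b ^ 2 - D) + r * ((b + 1) * b) := by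
    rw [← h5, ← h6]
    linarith
  have h8 : 2 * (b : ℝ) * ((GV S T N r).edgeSet.ncard : ℝ) ≤
      b * (N * (b ^ 2 - D) + r * ((b + 1) * b)) := by
    have := mul_le_mul_of_nonneg_left h7 hb0R.le
    linarith
  refine h8.trans ?_
  have h9 : b * (N * (b ^ 2 - D) + r * ((b + 1) * b)) = b ^ 2 * (n - 1) - D * (N * b) := by
    rw [hnR]; ring
  rw [h9]
  have h10 : (n : ℝ) - b ^ 2 ≤ N * b := by
    rw [hnR]
    nlinarith
  have h11 : D * ((n : ℝ) - b ^ 2) ≤ D * (N * b) := mul_le_mul_of_nonneg_left h10 hD0
  nlinarith [sq_nonneg (b : ℝ)]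

/-- **The asserted value of the saturation number of the virus graphs fails in the whole region
`s + 2 ≤ t < (s - 2)² + 4`.** -/
theorem result : ∀ s t : ℕ, 4 ≤ s → s + 2 ≤ t → t < (s - 2) ^ 2 + 4 →
    (∀ n : ℕ, (s + t) ^ 2 ≤ n → ∃ G : SimpleGraph (Fin n), IsSat (virus s t) G ∧
      (G.edgeSet.ncard : ℝ) ≤
        (((t : ℝ) + s - 2) / 2 - (((s : ℝ) - 2) ^ 2 + 4 - t) / (2 * (t + s - 2))) * n +
          (((s : ℝ) - 2) ^ 2 + 4 - t) * (t + s - 2) / 2) ∧
    ¬ ∃ C : ℝ, ∀ n : ℕ, s + t ≤ n →
      |(satNum n (virus s t) : ℝ) - ((t : ℝ) + s - 2) / 2 * n| ≤ C := by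
  intro s t hs hst ht
  obtain ⟨S, rfl⟩ : ∃ S, s = S + 1 := ⟨s - 1, by omega⟩
  obtain ⟨T, rfl⟩ : ∃ T, t = T + 1 := ⟨t - 1, by omega⟩
  have hS : 3 ≤ S := by omega
  have hST : S < T := by omega
  have htR : ((T : ℝ) + 1) + 1 ≤ ((S : ℝ) - 1) ^ 2 + 4 := by
    obtain ⟨S', rfl⟩ : ∃ S', S = S' + 1 := ⟨S - 1, by omega⟩
    have h1 : S' + 1 + 1 - 2 = S' := by omega
    rw [h1] at ht
    have h2 : ((T + 1 + 1 : ℕ) : ℝ) ≤ ((S' ^ 2 + 4 : ℕ) : ℝ) := by exact_mod_cast ht
    push_cast at h2 ⊢
    linarith
  have hb0 : (0 : ℝ) < (S : ℝ) + T := by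
    have : 0 < S + T := by omega
    exact_mod_cast this
  have main : ∀ n : ℕ, (S + 1 + (T + 1)) ^ 2 ≤ n → ∃ G : SimpleGraph (Fin n),
      IsSat (virus (S + 1) (T + 1)) G ∧ (G.edgeSet.ncard : ℝ) ≤
        (((T : ℝ) + S) / 2 - (((S : ℝ) - 1) ^ 2 + 3 - T) / (2 * (T + S))) * n +
          (((S : ℝ) - 1) ^ 2 + 3 - T) * (T + S) / 2 := by
    intro n hn
    obtain ⟨G, hG, hE⟩ := exists_sat hS hST (by linarith) n (by
      have : S + 1 + (T + 1) = S + T + 2 := by ring
      rw [← this]; exact hn)
    refine ⟨G, hG, ?_⟩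
    have h1 : (((T : ℝ) + S) / 2 - (((S : ℝ) - 1) ^ 2 + 3 - T) / (2 * (T + S))) * n +
          (((S : ℝ) - 1) ^ 2 + 3 - T) * (T + S) / 2 =
        ((((S : ℝ) + T) ^ 2 - (((S : ℝ) - 1) ^ 2 + 3 - T)) * n +
          (((S : ℝ) - 1) ^ 2 + 3 - T) * (S + T) ^ 2) / (2 * ((S : ℝ) + T)) := by
      have : (T : ℝ) + S ≠ 0 := by linarith
      have h' : (S : ℝ) + T ≠ 0 := by linarith
      have h'' : (T : ℝ) + S = S + T := by ring
      rw [h'']
      field_simp
    rw [h1, le_div_iff₀ (by linarith)]
    linarith
  refine ⟨?_, ?_⟩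
  · intro n hn
    obtain ⟨G, hG, hE⟩ := main n hn
    refine ⟨G, hG, hE.trans (le_of_eq ?_)⟩
    push_cast
    ring
  · rintro ⟨C, hC⟩
    -- take `n` large
    obtain ⟨D, hD⟩ : ∃ D : ℝ, D = ((S : ℝ) - 1) ^ 2 + 3 - T := ⟨_, rfl⟩
    have hD1 : 1 ≤ D := by rw [hD]; linarith
    obtain ⟨m, hm⟩ := exists_nat_gt ((C + D * (T + S) / 2) * (2 * (T + S)) / D)
    obtain ⟨n, hn⟩ : ∃ n, n = m + (S + 1 + (T + 1)) ^ 2 := ⟨_, rfl⟩
    obtain ⟨G, hG, hE⟩ := main n (by omega)
    have h1 : (satNum n (virus (S + 1) (T + 1)) : ℝ) ≤ G.edgeSet.ncard := by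
      have : satNum n (virus (S + 1) (T + 1)) ≤ G.edgeSet.ncard := Nat.sInf_le ⟨G, hG, rfl⟩
      exact_mod_cast this
    have h2 := (abs_le.1 (hC n (by
      have : S + 1 + (T + 1) ≤ (S + 1 + (T + 1)) ^ 2 := Nat.le_self_pow (by norm_num) _
      omega))).1
    rw [← hD] at hE
    have hTS : (0 : ℝ) < T + S := by linarith
    have hnm : (m : ℝ) ≤ n := by
      rw [hn]; push_cast; nlinarith [sq_nonneg ((S : ℝ) + 1 + (T + 1))]
    have h3 : (C + D * (T + S) / 2) < D / (2 * (T + S)) * n := by
      rw [div_lt_iff₀ (by linarith)] at hm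
      rw [div_mul_eq_mul_div, lt_div_iff₀ (by linarith)]
      nlinarith
    push_cast at h2
    have h4 : ((T : ℝ) + S) / 2 * n - D / (2 * (T + S)) * n + D * (T + S) / 2 - ((T : ℝ) + S) / 2 * n ≥ -C := by
      have : ((T : ℝ) + 1 + (S + 1) - 2) / 2 * n = ((T : ℝ) + S) / 2 * n := by ring
      rw [this] at h2
      linarith
    linarith

end Pool.Agent.Results.MP_2b7cb2_co.VirusRegion
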